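import Pool.Agent.Work.MP_3cad78_co.Bip

/-! Every finite bipartite graph is contractible. -/

namespace Pool.Agent.Results.MP_3cad78_co.Bipartite

open Pool.Agent.Work.MP_3cad78_co

theorem result (W : Type) [Finite W] (H : SimpleGraph W) (h : H.IsBipartite) : Contractible H :=
  contractible_of_bipartite H h

end Pool.Agent.Results.MP_3cad78_co.Bipartite
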