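import Pool.Agent.Work.MP_3cad78_co.Wk.Two

/-! If the vertices of degree at least three induce a contractible graph, every scheme yields a
minor rooted at all vertices whose degree is not two. -/

namespace Pool.Agent.Results.MP_3cad78_co.DegreeTwo

open Pool.Agent.Work.MP_3cad78_co

theorem result (W : Type) [Finite W] (H : SimpleGraph W)
    (hc : Contractible (H.induce {v | 3 ≤ (H.neighborSet v).ncard}))
    (V : Type) [Finite V] (G : SimpleGraph V) (ι : W ↪ V) (S : H.edgeSet → Set V)
    (hS : IsScheme H G ι S) : ∃ C : W → G.Subgraph, IsModel H G C ∧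
      ∀ w, (H.neighborSet w).ncard ≠ 2 → ι w ∈ (C w).verts :=
  Wk.two_main hc V G ι S hS

end Pool.Agent.Results.MP_3cad78_co.DegreeTwo
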