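import Pool.Agent.Work.MP_3cad78_co.Three

/-! A three-connected graph with at least eight vertices is contractible iff it is bipartite. -/

namespace Pool.Agent.Results.MP_3cad78_co.ThreeConnected

open Pool.Agent.Work.MP_3cad78_co

theorem result (W : Type) [Finite W] (H : SimpleGraph W) (hc : 8 ≤ Nat.card W)
    (h3 : ∀ x y : W, (H.induce {v | v ≠ x ∧ v ≠ y}).Connected) :
    Contractible H ↔ H.IsBipartite :=
  contractible_iff_of_three hc h3

end Pool.Agent.Results.MP_3cad78_co.ThreeConnected
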