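import Pool.Agent.Work.MP_3cad78_co.Wk.Main

/-! Large minimum degree and an odd closed walk through large twin classes exclude weak
contractibility. -/

namespace Pool.Agent.Results.MP_3cad78_co.TwinClasses

open Pool.Agent.Work.MP_3cad78_co

theorem result (g : ℕ) : ∃ m : ℕ, ∀ (W : Type) [Finite W] (H : SimpleGraph W),
    (∀ v, m ≤ (H.neighborSet v).ncard) → ∀ φ : SimpleGraph.cycleGraph (2 * g + 3) →g H,
    (∀ i, m ≤ {w | H.neighborSet w = H.neighborSet (φ i)}.ncard) → ¬ WeaklyContractible H :=
  Wk.twins SimpleGraph.cycleGraph_connected fun h => by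
    have h1 := SimpleGraph.chromaticNumber_cycleGraph_of_odd (2 * g + 3) (by omega) ⟨g + 1, by ring⟩
    have h2 := h.chromaticNumber_le
    rw [h1] at h2
    exact absurd h2 (by decide)

end Pool.Agent.Results.MP_3cad78_co.TwinClasses
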